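import Pool.Agent.W553.PM.Stm

/-! PM-ELLALG (helper542): the algebra of the ellipse property. -/

set_option autoImplicit false

namespace W542EA

open Set Filter Topology Real
open Pool.Agent.W553.PM

theorem polar (x y : ℝ) : ∃ r φ : ℝ, 0 ≤ r ∧ x = r * Real.cos φ ∧ y = r * Real.sin φ := by
  refine ⟨‖(⟨x, y⟩ : ℂ)‖, Complex.arg ⟨x, y⟩, norm_nonneg _, ?_, ?_⟩
  · rw [Complex.norm_mul_cos_arg]
  · rw [Complex.norm_mul_sin_arg]

/-- the homogeneous quadratic form of `q` -/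
def hq (q : Fin 6 → ℝ) (X Y Z : ℝ) : ℝ :=
  q 0 * X ^ 2 + q 1 * X * Y + q 2 * Y ^ 2 + q 3 * X * Z + q 4 * Y * Z + q 5 * Z ^ 2

theorem hq_zero (q : Fin 6 → ℝ) (h : ∀ X Y Z, hq q X Y Z = 0) : q = 0 := by
  have h0 := h 1 0 0
  have h2 := h 0 1 0
  have h5 := h 0 0 1
  have h1 := h 1 1 0
  have h3 := h 1 0 1
  have h4 := h 0 1 1
  simp only [hq] at h0 h1 h2 h3 h4 h5
  have e0 : q 0 = 0 := by linarith
  have e2 : q 2 = 0 := by linarith
  have e5 : q 5 = 0 := by linarith
  have e1 : q 1 = 0 := by linarith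
  have e3 : q 3 = 0 := by linarith
  have e4 : q 4 = 0 := by linarith
  funext i
  fin_cases i <;> simp [e0, e1, e2, e3, e4, e5]

/-- change of projective coordinates -/
theorem transform (q : Fin 6 → ℝ) (hq0 : q ≠ 0) (a1 a2 c0 s0 g : ℝ) (hg : g ≠ 0)
    (h1 : c0 * a1 + s0 * a2 = 1) :
    ∃ A B C D E F : ℝ, ¬ (A = 0 ∧ B = 0 ∧ C = 0 ∧ D = 0 ∧ E = 0 ∧ F = 0) ∧
      ∀ x y : ℝ, hq q (a1 * (g + c0 * x + s0 * y) - x) (a2 * (g + c0 * x + s0 * y) - y)
        (g + c0 * x + s0 * y) =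
        A * x ^ 2 + 2 * B * x * y + C * y ^ 2 + D * x + E * y + F := by
  set X0 := a1 * g with hX0
  set X1 := a1 * c0 - 1 with hX1
  set X2 := a1 * s0 with hX2
  set Y0 := a2 * g with hY0
  set Y1 := a2 * c0 with hY1
  set Y2 := a2 * s0 - 1 with hY2
  set A := q 0 * X1 ^ 2 + q 1 * X1 * Y1 + q 2 * Y1 ^ 2 + q 3 * X1 * c0 + q 4 * Y1 * c0 +
    q 5 * c0 ^ 2 with hA
  set C := q 0 * X2 ^ 2 + q 1 * X2 * Y2 + q 2 * Y2 ^ 2 + q 3 * X2 * s0 + q 4 * Y2 * s0 +
    q 5 * s0 ^ 2 with hC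
  set F := q 0 * X0 ^ 2 + q 1 * X0 * Y0 + q 2 * Y0 ^ 2 + q 3 * X0 * g + q 4 * Y0 * g +
    q 5 * g ^ 2 with hF
  set B := (2 * q 0 * X1 * X2 + q 1 * (X1 * Y2 + X2 * Y1) + 2 * q 2 * Y1 * Y2 +
    q 3 * (X1 * s0 + X2 * c0) + q 4 * (Y1 * s0 + Y2 * c0) + 2 * q 5 * c0 * s0) / 2 with hB
  set D := 2 * q 0 * X1 * X0 + q 1 * (X1 * Y0 + X0 * Y1) + 2 * q 2 * Y1 * Y0 +
    q 3 * (X1 * g + X0 * c0) + q 4 * (Y1 * g + Y0 * c0) + 2 * q 5 * c0 * g with hD
  set E := 2 * q 0 * X2 * X0 + q 1 * (X2 * Y0 + X0 * Y2) + 2 * q 2 * Y2 * Y0 +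
    q 3 * (X2 * g + X0 * s0) + q 4 * (Y2 * g + Y0 * s0) + 2 * q 5 * s0 * g with hE
  have key : ∀ x y w : ℝ, hq q (a1 * (g * w + c0 * x + s0 * y) - x)
      (a2 * (g * w + c0 * x + s0 * y) - y) (g * w + c0 * x + s0 * y) =
      A * x ^ 2 + 2 * B * x * y + C * y ^ 2 + D * x * w + E * y * w + F * w ^ 2 := by
    intro x y w
    simp only [hq, hA, hB, hC, hD, hE, hF, hX0, hX1, hX2, hY0, hY1, hY2]
    ring
  refine ⟨A, B, C, D, E, F, ?_, ?_⟩
  · rintro ⟨eA, eB, eC, eD, eE, eF⟩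
    refine hq0 (hq_zero q fun X Y Z => ?_)
    have hk := key (a1 * Z - X) (a2 * Z - Y) ((c0 * X + s0 * Y) / g)
    have hw : g * ((c0 * X + s0 * Y) / g) + c0 * (a1 * Z - X) + s0 * (a2 * Z - Y) = Z := by
      rw [mul_div_cancel₀ _ hg]
      linear_combination Z * h1
    rw [hw, eA, eB, eC, eD, eE, eF] at hk
    have e1 : a1 * Z - (a1 * Z - X) = X := by ring
    have e2 : a2 * Z - (a2 * Z - Y) = Y := by ring
    rw [e1, e2] at hk
    rw [hk]
    ring
  · intro x y
    have hk := key x y 1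
    simp only [mul_one, one_pow] at hk
    exact hk

set_option maxHeartbeats 1000000 in
/-- **PM-ELLALG** -/
theorem T_ellalg : S_ellalg := by
  intro G T hT hG0 hG hGp hTp hsup φ₀ q hq0 hev
  set kx : ℝ → ℝ := fun φ => G φ * (Real.cos φ - T φ * Real.sin φ) with hkx
  set ky : ℝ → ℝ := fun φ => G φ * (Real.sin φ + T φ * Real.cos φ) with hky
  have hGc : Continuous G := continuous_iff_continuousAt.2 fun φ => (hG φ).continuousAt
  have ckx : Continuous kx := by
    simp only [hkx]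
    fun_prop
  have cky : Continuous ky := by
    simp only [hky]
    fun_prop
  have F1 : ∀ φ, Real.cos φ * kx φ + Real.sin φ * ky φ = G φ := by
    intro φ
    simp only [hkx, hky]
    linear_combination G φ * Real.sin_sq_add_cos_sq φ
  have F1' : ∀ φ, -Real.sin φ * kx φ + Real.cos φ * ky φ = G φ * T φ := by
    intro φ
    simp only [hkx, hky]
    linear_combination G φ * T φ * Real.sin_sq_add_cos_sq φ
  have F2 : ∀ φ ψ, Real.cos φ * kx ψ + Real.sin φ * ky ψ ≤ G φ := by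
    intro φ ψ
    have h := hsup φ ψ
    simp only [ip, ee, ww, Prod.fst_add, Prod.snd_add, Prod.smul_fst, Prod.smul_snd,
      smul_eq_mul] at h
    simp only [hkx, hky]
    linarith
  have F3x : ∀ φ, kx (φ + π) = -kx φ := by
    intro φ
    simp only [hkx, hGp, hTp, Real.cos_add_pi, Real.sin_add_pi]
    ring
  have F3y : ∀ φ, ky (φ + π) = -ky φ := by
    intro φ
    simp only [hky, hGp, hTp, Real.cos_add_pi, Real.sin_add_pi]
    ring
  have F5 : ∀ x y ψ : ℝ, Real.cos ψ * x + Real.sin ψ * y = G ψ →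
      (∀ χ, Real.cos χ * x + Real.sin χ * y ≤ G χ) → x = kx ψ ∧ y = ky ψ := by
    intro x y ψ h1 h2
    have hd : HasDerivAt (fun χ => G χ - (Real.cos χ * x + Real.sin χ * y))
        (G ψ * T ψ - (-Real.sin ψ * x + Real.cos ψ * y)) ψ :=
      (hG ψ).sub (((Real.hasDerivAt_cos ψ).mul_const x).add ((Real.hasDerivAt_sin ψ).mul_const y))
    have hm : IsLocalMin (fun χ => G χ - (Real.cos χ * x + Real.sin χ * y)) ψ := by
      refine Eventually.of_forall fun χ => ?_
      simp only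
      rw [h1, sub_self]
      linarith [h2 χ]
    have h3 := hm.hasDerivAt_eq_zero hd
    have h4 := Real.sin_sq_add_cos_sq ψ
    constructor
    · simp only [hkx]
      linear_combination Real.cos ψ * h1 + Real.sin ψ * h3 - x * h4
    · simp only [hky]
      linear_combination Real.sin ψ * h1 - Real.cos ψ * h3 - y * h4
  set g := G φ₀ with hg
  have hgpos : 0 < g := hG0 φ₀
  set a1 := Real.cos φ₀ - T φ₀ * Real.sin φ₀ with ha1
  set a2 := Real.sin φ₀ + T φ₀ * Real.cos φ₀ with ha2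
  have haa : Real.cos φ₀ * a1 + Real.sin φ₀ * a2 = 1 := by
    rw [ha1, ha2]
    linear_combination Real.sin_sq_add_cos_sq φ₀
  have hD0 : ∀ φ, 0 ≤ g + Real.cos φ₀ * kx φ + Real.sin φ₀ * ky φ := by
    intro φ
    have h := F2 (φ₀ + π) φ
    rw [Real.cos_add_pi, Real.sin_add_pi, hGp] at h
    linarith
  have hDz : ∀ φ, g + Real.cos φ₀ * kx φ + Real.sin φ₀ * ky φ = 0 →
      kx φ = -kx φ₀ ∧ ky φ = -ky φ₀ := by
    intro φ h
    have h' := F5 (kx φ) (ky φ) (φ₀ + π) (by
      rw [Real.cos_add_pi, Real.sin_add_pi, hGp]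
      linarith) (fun χ => F2 χ φ)
    rw [F3x, F3y] at h'
    exact h'
  obtain ⟨A, B, C, D, E, F, hne, hQ⟩ := transform q hq0 a1 a2 (Real.cos φ₀) (Real.sin φ₀) g
    hgpos.ne' haa
  have good : ∀ φ ∈ Icc (φ₀ - π) (φ₀ + π), 0 < g + Real.cos φ₀ * kx φ + Real.sin φ₀ * ky φ →
      A * (kx φ) ^ 2 + 2 * B * kx φ * ky φ + C * (ky φ) ^ 2 + D * kx φ + E * ky φ + F = 0 := by
    intro φ hφ hpos
    have e1 : G φ₀ + G φ * ip (ee φ₀) (ee φ + T φ • ww φ) =
        g + Real.cos φ₀ * kx φ + Real.sin φ₀ * ky φ := by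
      simp only [ip, ee, ww, Prod.fst_add, Prod.snd_add, Prod.smul_fst, Prod.smul_snd,
        smul_eq_mul, hkx, hky, hg]
      ring
    have h := hev φ hφ (by rw [e1]; exact hpos)
    rw [e1] at h
    set DD := g + Real.cos φ₀ * kx φ + Real.sin φ₀ * ky φ with hDD
    rw [← hQ (kx φ) (ky φ)]
    simp only [ev, ee, ww, Prod.fst_add, Prod.snd_add, Prod.smul_fst, Prod.smul_snd,
      smul_eq_mul, Prod.fst_sub, Prod.snd_sub] at h
    have hx : Real.cos φ₀ + T φ₀ * -Real.sin φ₀ - G φ / DD * (Real.cos φ + T φ * -Real.sin φ) =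
        (a1 * DD - kx φ) / DD := by
      rw [eq_div_iff hpos.ne', sub_mul, ha1]
      simp only [hkx]
      field_simp
      ring
    have hy : Real.sin φ₀ + T φ₀ * Real.cos φ₀ - G φ / DD * (Real.sin φ + T φ * Real.cos φ) =
        (a2 * DD - ky φ) / DD := by
      rw [eq_div_iff hpos.ne', sub_mul, ha2]
      simp only [hky]
      field_simp
    rw [hx, hy] at h
    unfold hq
    have hne0 : DD ≠ 0 := hpos.ne'
    have h2 : q 0 * (a1 * DD - kx φ) ^ 2 + q 1 * (a1 * DD - kx φ) * (a2 * DD - ky φ) +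
        q 2 * (a2 * DD - ky φ) ^ 2 + q 3 * (a1 * DD - kx φ) * DD + q 4 * (a2 * DD - ky φ) * DD +
        q 5 * DD ^ 2 = DD ^ 2 * (q 0 * ((a1 * DD - kx φ) / DD) ^ 2 +
        q 1 * ((a1 * DD - kx φ) / DD) * ((a2 * DD - ky φ) / DD) +
        q 2 * ((a2 * DD - ky φ) / DD) ^ 2 + q 3 * ((a1 * DD - kx φ) / DD) +
        q 4 * ((a2 * DD - ky φ) / DD) + q 5) := by
      field_simp
    rw [h2, h, mul_zero]
  -- the value at `-k0`
  set Qk : ℝ → ℝ := fun φ => A * (kx φ) ^ 2 + 2 * B * kx φ * ky φ + C * (ky φ) ^ 2 + D * kx φ +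
    E * ky φ + F with hQk
  have cQk : Continuous Qk := by
    simp only [hQk]
    fun_prop
  have hpi := Real.pi_pos
  have hQ0 : Qk φ₀ = 0 := by
    refine good φ₀ ⟨by linarith, by linarith⟩ ?_
    have := F1 φ₀
    linarith
  have hval : ∀ φ ∈ Icc (φ₀ - π) (φ₀ + π), Qk φ = 0 ∨ Qk φ = Qk (φ₀ + π) := by
    intro φ hφ
    rcases (hD0 φ).lt_or_eq with h | h
    · left
      exact good φ hφ h
    · right
      obtain ⟨h1, h2⟩ := hDz φ h.symm
      simp only [hQk]
      rw [F3x, F3y, h1, h2]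
  have hQpi : Qk (φ₀ + π) = 0 := by
    by_contra hcon
    have hivt : Qk (φ₀ + π) / 2 ∈ Qk '' Icc φ₀ (φ₀ + π) := by
      rcases lt_or_gt_of_ne hcon with h | h
      · refine intermediate_value_Icc' (by linarith) cQk.continuousOn ⟨?_, ?_⟩
        · linarith
        · rw [hQ0]; linarith
      · refine intermediate_value_Icc (by linarith) cQk.continuousOn ⟨?_, ?_⟩
        · rw [hQ0]; linarith
        · linarith
    obtain ⟨φ, hφ, hφ2⟩ := hivt
    rcases hval φ ⟨by linarith [hφ.1], hφ.2⟩ with h | h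
    · rw [h] at hφ2
      exact hcon (by linarith)
    · rw [h] at hφ2
      exact hcon (by linarith)
  have hall : ∀ φ, A * (kx φ) ^ 2 + 2 * B * kx φ * ky φ + C * (ky φ) ^ 2 + D * kx φ +
      E * ky φ + F = 0 := by
    have hper : Function.Periodic Qk (2 * π) := by
      intro φ
      have e : φ + 2 * π = (φ + π) + π := by ring
      simp only [hQk]
      rw [e, F3x, F3y, F3x, F3y, neg_neg, neg_neg]
    intro φ
    obtain ⟨y, hy, hy2⟩ := hper.exists_mem_Ico (by linarith) φ (φ₀ - π)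
    have hyI : y ∈ Icc (φ₀ - π) (φ₀ + π) := ⟨hy.1, by linarith [hy.2]⟩
    change Qk φ = 0
    rw [hy2]
    rcases hval y hyI with h | h
    · exact h
    · rw [h, hQpi]
  -- the linear part vanishes
  have hlin : ∀ φ, D * kx φ + E * ky φ = 0 := by
    intro φ
    have h1 := hall φ
    have h2 := hall (φ + π)
    rw [F3x, F3y] at h2
    linarith
  obtain ⟨r, β, hr0, hDr, hEr⟩ := polar D E
  have hr : r = 0 := by
    have h1 := hlin β
    have h2 := F1 β
    have h3 : r * G β = 0 := by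
      rw [hDr, hEr] at h1
      linear_combination h1 - r * h2
    rcases mul_eq_zero.1 h3 with h | h
    · exact h
    · exact absurd h (hG0 β).ne'
  have hD : D = 0 := by rw [hDr, hr, zero_mul]
  have hE : E = 0 := by rw [hEr, hr, zero_mul]
  have hquad : ∀ φ, A * (kx φ) ^ 2 + 2 * B * kx φ * ky φ + C * (ky φ) ^ 2 = -F := by
    intro φ
    have h1 := hall φ
    rw [hD, hE] at h1
    linarith
  -- every direction is covered
  have COV : ∀ α : ℝ, ∃ ψ t : ℝ, 0 < t ∧ kx ψ = t * Real.cos α ∧ ky ψ = t * Real.sin α := by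
    intro α
    have hc : Continuous fun φ => -Real.sin α * kx φ + Real.cos α * ky φ := by fun_prop
    have hl : -Real.sin α * kx (α - π / 2) + Real.cos α * ky (α - π / 2) < 0 := by
      have h := F1 (α - π / 2)
      rw [Real.cos_sub_pi_div_two, Real.sin_sub_pi_div_two] at h
      have := hG0 (α - π / 2)
      linarith
    have hu : 0 < -Real.sin α * kx (α + π / 2) + Real.cos α * ky (α + π / 2) := by
      have h := F1 (α + π / 2)
      rw [Real.cos_add_pi_div_two, Real.sin_add_pi_div_two] at h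
      have := hG0 (α + π / 2)
      linarith
    obtain ⟨ψ, hψ, hψ2⟩ := intermediate_value_Icc (by linarith : α - π / 2 ≤ α + π / 2)
      hc.continuousOn ⟨hl.le, hu.le⟩
    simp only at hψ2
    set t := Real.cos α * kx ψ + Real.sin α * ky ψ with ht
    have hs := Real.sin_sq_add_cos_sq α
    have e1 : kx ψ = t * Real.cos α := by
      rw [ht]
      linear_combination (-Real.sin α) * hψ2 - kx ψ * hs
    have e2 : ky ψ = t * Real.sin α := by
      rw [ht]
      linear_combination (Real.cos α) * hψ2 - ky ψ * hs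
    refine ⟨ψ, t, ?_, e1, e2⟩
    have h5 := F1 ψ
    rw [e1, e2] at h5
    have h6 : t * Real.cos (ψ - α) = G ψ := by
      rw [Real.cos_sub]
      linarith
    have h7 : 0 ≤ Real.cos (ψ - α) :=
      Real.cos_nonneg_of_neg_pi_div_two_le_of_le (by linarith [hψ.1]) (by linarith [hψ.2])
    have h8 := hG0 ψ
    by_contra hcon
    push Not at hcon
    have := mul_nonpos_of_nonpos_of_nonneg hcon h7
    linarith
  -- `F` is not zero
  have hdir : ∀ α : ℝ, ∃ t : ℝ, 0 < t ∧ t ^ 2 * (A * Real.cos α ^ 2 +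
      2 * B * Real.cos α * Real.sin α + C * Real.sin α ^ 2) = -F := by
    intro α
    obtain ⟨ψ, t, ht, e1, e2⟩ := COV α
    refine ⟨t, ht, ?_⟩
    rw [← hquad ψ, e1, e2]
    ring
  have hF : F ≠ 0 := by
    intro hF
    have hz : ∀ α : ℝ, A * Real.cos α ^ 2 + 2 * B * Real.cos α * Real.sin α +
        C * Real.sin α ^ 2 = 0 := by
      intro α
      obtain ⟨t, ht, h⟩ := hdir α
      rw [hF, neg_zero] at h
      rcases mul_eq_zero.1 h with h | h
      · exact absurd h (by positivity)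
      · exact h
    have hA : A = 0 := by
      have h := hz 0
      rw [Real.cos_zero, Real.sin_zero] at h
      linarith
    have hC : C = 0 := by
      have h := hz (π / 2)
      rw [Real.cos_pi_div_two, Real.sin_pi_div_two] at h
      linarith
    have hB : B = 0 := by
      have h := hz (π / 4)
      rw [hA, hC, Real.cos_pi_div_four, Real.sin_pi_div_four] at h
      have h2 : (√2 / 2) * (√2 / 2) = (1 / 2 : ℝ) := by
        have : √2 * √2 = (2 : ℝ) := Real.mul_self_sqrt (by norm_num)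
        linear_combination this / 4
      have h3 : 2 * B * (√2 / 2) * (√2 / 2) = B := by
        linear_combination 2 * B * h2
      linarith
    exact hne ⟨hA, hB, hC, hD, hE, hF⟩
  -- normalise
  set A' := A / -F with hA'
  set B' := B / -F with hB'
  set C' := C / -F with hC'
  have hmF : -F ≠ 0 := neg_ne_zero.2 hF
  have hquad' : ∀ φ, A' * (kx φ) ^ 2 + 2 * B' * kx φ * ky φ + C' * (ky φ) ^ 2 = 1 := by
    intro φ
    have h1 := hquad φ
    rw [hA', hB', hC']
    field_simp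
    linarith
  have cov' : ∀ x y : ℝ, (x, y) ≠ ((0 : ℝ), (0 : ℝ)) → ∃ ψ s : ℝ, 0 < s ∧ x = s * kx ψ ∧
      y = s * ky ψ ∧ A' * x ^ 2 + 2 * B' * x * y + C' * y ^ 2 = s ^ 2 := by
    intro x y hxy
    obtain ⟨r, α, hr0, hx, hy⟩ := polar x y
    obtain ⟨ψ, t, ht, e1, e2⟩ := COV α
    have hrpos : 0 < r := by
      rcases hr0.lt_or_eq with h | h
      · exact h
      · exfalso
        apply hxy
        rw [hx, hy, ← h, zero_mul, zero_mul]
    have ex : x = r / t * kx ψ := by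
      rw [hx, e1]
      field_simp
    have ey : y = r / t * ky ψ := by
      rw [hy, e2]
      field_simp
    refine ⟨ψ, r / t, by positivity, ex, ey, ?_⟩
    calc A' * x ^ 2 + 2 * B' * x * y + C' * y ^ 2 =
        (r / t) ^ 2 * (A' * (kx ψ) ^ 2 + 2 * B' * kx ψ * ky ψ + C' * (ky ψ) ^ 2) := by
          rw [ex, ey]; ring
      _ = (r / t) ^ 2 := by rw [hquad' ψ, mul_one]
  have hApos : 0 < A' := by
    obtain ⟨ψ, s, hs, -, -, h⟩ := cov' 1 0 (by simp)
    have h2 : A' = s ^ 2 := by linarith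
    rw [h2]
    positivity
  have hdet : 0 < A' * C' - B' ^ 2 := by
    obtain ⟨ψ, s, hs, -, -, h⟩ := cov' (-B') A' (by
      intro h
      have := (Prod.mk.inj h).2
      exact hApos.ne' this)
    have h2 : A' * (A' * C' - B' ^ 2) = s ^ 2 := by linear_combination h
    have h3 : 0 < A' * (A' * C' - B' ^ 2) := by
      rw [h2]; positivity
    exact (mul_pos_iff_of_pos_left hApos).1 h3
  refine ⟨A', B', C', hApos, hdet, ?_⟩
  intro φ
  -- the tangent direction
  have hmin : ∀ t : ℝ, 0 ≤ 2 * t * (A' * kx φ * -Real.sin φ + B' * (kx φ * Real.cos φ +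
      ky φ * -Real.sin φ) + C' * ky φ * Real.cos φ) + t ^ 2 * (A' * Real.sin φ ^ 2 -
      2 * B' * Real.sin φ * Real.cos φ + C' * Real.cos φ ^ 2) := by
    intro t
    have hGφ := hG0 φ
    have hip : Real.cos φ * (kx φ + t * -Real.sin φ) + Real.sin φ * (ky φ + t * Real.cos φ) =
        G φ := by
      rw [← F1 φ]; ring
    obtain ⟨ψ, s, hs, ex, ey, h⟩ := cov' (kx φ + t * -Real.sin φ) (ky φ + t * Real.cos φ) (by
      intro h
      have h1 := (Prod.mk.inj h).1
      have h2 := (Prod.mk.inj h).2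
      rw [h1, h2] at hip
      linarith)
    have h1 : 1 ≤ s := by
      rw [ex, ey] at hip
      have h3 := F2 φ ψ
      have h4 : s * (Real.cos φ * kx ψ + Real.sin φ * ky ψ) = G φ := by
        rw [← hip]; ring
      have h5 : G φ ≤ s * G φ := by
        calc G φ = s * (Real.cos φ * kx ψ + Real.sin φ * ky ψ) := h4.symm
          _ ≤ s * G φ := mul_le_mul_of_nonneg_left h3 hs.le
      by_contra hcon
      push Not at hcon
      have h9 : s * G φ < 1 * G φ := mul_lt_mul_of_pos_right hcon hGφ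
      linarith
    have h6 : 1 ≤ s ^ 2 := one_le_pow₀ h1
    have h7 := hquad' φ
    have h8 : 2 * t * (A' * kx φ * -Real.sin φ + B' * (kx φ * Real.cos φ +
      ky φ * -Real.sin φ) + C' * ky φ * Real.cos φ) + t ^ 2 * (A' * Real.sin φ ^ 2 -
      2 * B' * Real.sin φ * Real.cos φ + C' * Real.cos φ ^ 2) = s ^ 2 - 1 := by
      linear_combination h - h7
    rw [h8]
    linarith
  set b := A' * kx φ * -Real.sin φ + B' * (kx φ * Real.cos φ +
      ky φ * -Real.sin φ) + C' * ky φ * Real.cos φ with hb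
  set w := A' * Real.sin φ ^ 2 - 2 * B' * Real.sin φ * Real.cos φ + C' * Real.cos φ ^ 2 with hw
  have hb0 : b = 0 := by
    by_contra hb0
    -- choose t = - b / (|w| + 1)
    have hW : 0 < |w| + 1 := by positivity
    have h := hmin (-b / (|w| + 1))
    have h2 : 2 * (-b / (|w| + 1)) * b + (-b / (|w| + 1)) ^ 2 * w =
        b ^ 2 / (|w| + 1) ^ 2 * (w - 2 * (|w| + 1)) := by
      field_simp
      ring
    rw [h2] at h
    have h3 : 0 < b ^ 2 / (|w| + 1) ^ 2 := by positivity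
    have h4 : w - 2 * (|w| + 1) < 0 := by
      have := le_abs_self w
      have := abs_nonneg w
      linarith
    have := mul_neg_of_pos_of_neg h3 h4
    linarith
  have hfin : G φ * bf A' B' C' (ww φ) (ee φ + T φ • ww φ) = b := by
    simp only [bf, ee, ww, Prod.fst_add, Prod.snd_add, Prod.smul_fst, Prod.smul_snd,
      smul_eq_mul, hb, hkx, hky]
    ring
  rw [hb0] at hfin
  rcases mul_eq_zero.1 hfin with h | h
  · exact absurd h (hG0 φ).ne'
  · exact h

end W542EA
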